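import Pool.Agent.X155.ParaTwoEN

/-! MP_e0c8e7_al, Q1: the answer is negative, already for `m = 2`. -/

namespace Pool.Agent.Results.MP_e0c8e7_al.ExponentTwo

/-- The class `E_m N`: `H` has a normal subgroup `K` with `k ^ m = 1` for all `k ∈ K` and
`H / K` nilpotent. -/
def IsExpByNilpotent (m : ℕ) (H : Type) [Group H] : Prop :=
  ∃ (K : Subgroup H) (_ : K.Normal), (∀ k ∈ K, k ^ m = 1) ∧ Group.IsNilpotent (H ⧸ K)

/-- The class `FN` of finite-by-nilpotent groups. -/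
def IsFiniteByNilpotent (H : Type) [Group H] : Prop :=
  ∃ (K : Subgroup H) (_ : K.Normal), Finite K ∧ Group.IsNilpotent (H ⧸ K)

/-- The class `E_m (FN)`: `H` has a normal subgroup `K` with `k ^ m = 1` for all `k ∈ K` and
`H / K` finite-by-nilpotent. -/
def IsExpByFiniteByNilpotent (m : ℕ) (H : Type) [Group H] : Prop :=
  ∃ (K : Subgroup H) (_ : K.Normal), (∀ k ∈ K, k ^ m = 1) ∧ IsFiniteByNilpotent (H ⧸ K)

/-- The class `(E_m N, ∞)*`: every infinite subset contains distinct `x, y` such that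
`⟨x, y⁻¹ x y⟩` is in `E_m N`. -/
def InStarClass (m : ℕ) (G : Type) [Group G] : Prop :=
  ∀ S : Set G, S.Infinite → ∃ x ∈ S, ∃ y ∈ S, x ≠ y ∧
    IsExpByNilpotent m (Subgroup.closure {x, y⁻¹ * x * y} : Subgroup G)

/-- There is a finitely generated soluble group in `(E_2 N, ∞)*` which is not in `E_2 (FN)`; in
fact all subgroups `⟨x, x ^ y⟩` of it are in `E_2 N`. -/
theorem result : ∃ (G : Type) (_ : Group G), Group.FG G ∧ Group.IsSolvable G ∧
    (∀ x y : G, IsExpByNilpotent 2 (Subgroup.closure {x, y⁻¹ * x * y} : Subgroup G)) ∧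
    InStarClass 2 G ∧ ¬ IsExpByFiniteByNilpotent 2 G := by
  have hall : ∀ x y : Pool.Agent.X155.ParaTwo.Amb.G,
      IsExpByNilpotent 2 (Subgroup.closure {x, y⁻¹ * x * y} :
        Subgroup Pool.Agent.X155.ParaTwo.Amb.G) := by
    intro x y
    refine Pool.Agent.X155.ParaTwo.Amb.emn_closure x (y⁻¹ * x * y) ?_
    change x.1.k = (y.1⁻¹ * x.1 * y.1).k
    rw [Pool.Agent.X155.ParaTwo.Amb.mul_k, Pool.Agent.X155.ParaTwo.Amb.mul_k,
      Pool.Agent.X155.ParaTwo.Amb.inv_k]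
    abel
  refine ⟨Pool.Agent.X155.ParaTwo.Amb.G, inferInstance, ?_, inferInstance, hall, ?_,
    Pool.Agent.X155.ParaTwo.Amb.not_emfn⟩
  · rw [Group.fg_iff_subgroup_fg, Subgroup.fg_iff]
    exact ⟨{Pool.Agent.X155.ParaTwo.Amb.T (1, 0), Pool.Agent.X155.ParaTwo.Amb.T (0, 1),
      Pool.Agent.X155.ParaTwo.Amb.a}, rfl, Set.toFinite _⟩
  · intro S hS
    obtain ⟨x, hx, y, hy, hxy⟩ := hS.nontrivial
    exact ⟨x, hx, y, hy, hxy, hall x y⟩

end Pool.Agent.Results.MP_e0c8e7_al.ExponentTwo
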